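import Pool.Agent.Helper1.RK.StA

/-!
# Project RK (MP_de00bc_nt): module MB3 (three points)
-/

set_option autoImplicit false

namespace Pool.Agent.Helper52.RK

open Polynomial Pool.Agent.Helper1.RK

theorem pMB3 (_h1 : StDER) : StMB3 := by
  intro L _ _ d P E o1 o2 o3 hP hE _ _ _ e1 e2 e3
  obtain ⟨hC, hX⟩ := hE
  obtain ⟨α, β, γ, hPe⟩ : ∃ α β γ : L, P = C α * X ^ 2 + C β * X + C γ := by
    refine ⟨P.coeff 2, P.coeff 1, P.coeff 0, ?_⟩
    have h := P.as_sum_range_C_mul_X_pow' (n := 3) (by omega)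
    rw [Finset.sum_range_succ, Finset.sum_range_succ, Finset.sum_range_succ, Finset.sum_range_zero] at h
    rw [pow_zero, pow_one, mul_one, zero_add] at h
    nth_rewrite 1 [h]
    ring
  have hev : ∀ o : L, P.eval o = α * o ^ 2 + β * o + γ := by
    intro o
    rw [hPe]
    simp
  rw [hev] at e1 e2 e3
  have hPx : algebraMap L[X] (RatFunc L) P
      = RatFunc.C α * RatFunc.X ^ 2 + RatFunc.C β * RatFunc.X + RatFunc.C γ := by
    rw [hPe]
    simp only [map_add, map_mul, map_pow, RatFunc.algebraMap_C, RatFunc.algebraMap_X]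
  rw [hPx] at hX
  have c1 : E (RatFunc.C o1) = RatFunc.C α * RatFunc.C o1 ^ 2 + RatFunc.C β * RatFunc.C o1
      + RatFunc.C γ := by
    rw [hC, ← e1]; simp only [map_add, map_mul, map_pow]
  have c2 : E (RatFunc.C o2) = RatFunc.C α * RatFunc.C o2 ^ 2 + RatFunc.C β * RatFunc.C o2
      + RatFunc.C γ := by
    rw [hC, ← e2]; simp only [map_add, map_mul, map_pow]
  have c3 : E (RatFunc.C o3) = RatFunc.C α * RatFunc.C o3 ^ 2 + RatFunc.C β * RatFunc.C o3
      + RatFunc.C γ := by
    rw [hC, ← e3]; simp only [map_add, map_mul, map_pow]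
  rw [Derivation.leibniz_div]
  have key : ((RatFunc.X - RatFunc.C o3) * RatFunc.C (o2 - o1)) •
      E ((RatFunc.X - RatFunc.C o1) * RatFunc.C (o2 - o3))
      - ((RatFunc.X - RatFunc.C o1) * RatFunc.C (o2 - o3)) •
      E ((RatFunc.X - RatFunc.C o3) * RatFunc.C (o2 - o1)) = 0 := by
    rw [map_sub RatFunc.C, map_sub RatFunc.C]
    rw [Derivation.leibniz, Derivation.leibniz]
    simp only [map_sub, smul_eq_mul]
    rw [hX, c1, c2, c3]
    ring
  rw [key, smul_zero]

end Pool.Agent.Helper52.RK
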