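import Pool.Agent.Helper1.RK.StA

/-!
# Project RK (MP_de00bc_nt): module ORD (order calculus)
-/

set_option autoImplicit false

namespace Pool.Agent.Helper52.RK

open Polynomial Pool.Agent.Helper1.RK

variable {L : Type} [Field L]

theorem ord_div (p : L) (a b : L[X]) (ha : a ≠ 0) (hb : b ≠ 0) :
    ord p (algebraMap L[X] (RatFunc L) a / algebraMap L[X] (RatFunc L) b)
      = (a.rootMultiplicity p : ℤ) - b.rootMultiplicity p := by
  set g : RatFunc L := algebraMap L[X] (RatFunc L) a / algebraMap L[X] (RatFunc L) b with hg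
  have hinj : Function.Injective (algebraMap L[X] (RatFunc L)) := RatFunc.algebraMap_injective L
  have ha' : algebraMap L[X] (RatFunc L) a ≠ 0 := by
    intro h; exact ha (hinj (by rw [h, map_zero]))
  have hb' : algebraMap L[X] (RatFunc L) b ≠ 0 := by
    intro h; exact hb (hinj (by rw [h, map_zero]))
  have hg0 : g ≠ 0 := div_ne_zero ha' hb'
  have hn : g.num ≠ 0 := RatFunc.num_ne_zero hg0
  have hd : g.denom ≠ 0 := RatFunc.denom_ne_zero g
  have hd' : algebraMap L[X] (RatFunc L) g.denom ≠ 0 := by
    intro h; exact hd (hinj (by rw [h, map_zero]))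
  have h1 : algebraMap L[X] (RatFunc L) g.num / algebraMap L[X] (RatFunc L) g.denom
      = algebraMap L[X] (RatFunc L) a / algebraMap L[X] (RatFunc L) b := by
    rw [RatFunc.num_div_denom g]
  rw [div_eq_div_iff hd' hb', ← map_mul, ← map_mul] at h1
  have h2 := hinj h1
  have h3 := congrArg (rootMultiplicity p) h2
  rw [rootMultiplicity_mul (mul_ne_zero hn hb), rootMultiplicity_mul (mul_ne_zero ha hd)] at h3
  unfold ord
  omega

theorem exists_div (g : RatFunc L) (hg : g ≠ 0) : ∃ a b : L[X], a ≠ 0 ∧ b ≠ 0 ∧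
    g = algebraMap L[X] (RatFunc L) a / algebraMap L[X] (RatFunc L) b :=
  ⟨g.num, g.denom, RatFunc.num_ne_zero hg, RatFunc.denom_ne_zero g, (RatFunc.num_div_denom g).symm⟩

theorem ord_zero' (p : L) : ord p (0 : RatFunc L) = 0 := by
  unfold ord
  rw [RatFunc.num_zero, RatFunc.denom_zero, rootMultiplicity_zero]
  have : rootMultiplicity p (1 : L[X]) = 0 := by
    have := rootMultiplicity_C (1 : L) p
    simpa using this
  rw [this]
  simp

theorem am_ne {a : L[X]} (ha : a ≠ 0) : algebraMap L[X] (RatFunc L) a ≠ 0 := by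
  intro h
  exact ha (RatFunc.algebraMap_injective L (by rw [h, map_zero]))

theorem ord_mul' (p : L) (g h : RatFunc L) (hg : g ≠ 0) (hh : h ≠ 0) :
    ord p (g * h) = ord p g + ord p h := by
  obtain ⟨a, b, ha, hb, rfl⟩ := exists_div g hg
  obtain ⟨c, d, hc, hd, rfl⟩ := exists_div h hh
  rw [div_mul_div_comm, ← map_mul, ← map_mul, ord_div p _ _ (mul_ne_zero ha hc) (mul_ne_zero hb hd),
    ord_div p _ _ ha hb, ord_div p _ _ hc hd, rootMultiplicity_mul (mul_ne_zero ha hc),
    rootMultiplicity_mul (mul_ne_zero hb hd)]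
  push_cast
  ring

theorem ord_poly (p : L) (a : L[X]) (ha : a ≠ 0) :
    ord p (algebraMap L[X] (RatFunc L) a) = (a.rootMultiplicity p : ℤ) := by
  have h1 := ord_div p a 1 ha one_ne_zero
  rw [map_one, div_one] at h1
  rw [h1]
  have : rootMultiplicity p (1 : L[X]) = 0 := by
    have := rootMultiplicity_C (1 : L) p
    simpa using this
  rw [this]
  simp

theorem ord_C' (p a : L) : ord p (RatFunc.C a) = 0 := by
  by_cases ha : a = 0
  · rw [ha, map_zero]; exact ord_zero' p
  · rw [← RatFunc.algebraMap_C, ord_poly p _ (C_ne_zero.2 ha), rootMultiplicity_C]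
    simp

theorem ord_neg' (p : L) (g : RatFunc L) : ord p (-g) = ord p g := by
  by_cases hg : g = 0
  · rw [hg, neg_zero]
  · have h1 : -g = RatFunc.C (-1 : L) * g := by
      rw [map_neg, map_one]; ring
    rw [h1, ord_mul' p _ _ _ hg, ord_C', zero_add]
    intro h
    rw [map_neg, map_one, neg_eq_zero] at h
    exact one_ne_zero h

theorem ord_add' (p : L) (g h : RatFunc L) (hg : g ≠ 0) (hh : h ≠ 0) (hgh : g + h ≠ 0) :
    min (ord p g) (ord p h) ≤ ord p (g + h) := by
  obtain ⟨a, b, ha, hb, rfl⟩ := exists_div g hg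
  obtain ⟨c, d, hc, hd, rfl⟩ := exists_div h hh
  have e : algebraMap L[X] (RatFunc L) a / algebraMap L[X] (RatFunc L) b
      + algebraMap L[X] (RatFunc L) c / algebraMap L[X] (RatFunc L) d
      = algebraMap L[X] (RatFunc L) (a * d + b * c) / algebraMap L[X] (RatFunc L) (b * d) := by
    rw [div_add_div _ _ (am_ne hb) (am_ne hd), map_add, map_mul, map_mul, map_mul]
  have hne : a * d + b * c ≠ 0 := by
    intro h0
    apply hgh
    rw [e, h0, map_zero, zero_div]
  rw [e, ord_div p _ _ hne (mul_ne_zero hb hd), ord_div p _ _ ha hb, ord_div p _ _ hc hd,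
    rootMultiplicity_mul (mul_ne_zero hb hd)]
  have h1 := rootMultiplicity_add (p := a * d) (q := b * c) p hne
  rw [rootMultiplicity_mul (mul_ne_zero ha hd), rootMultiplicity_mul (mul_ne_zero hb hc)] at h1
  rcases min_le_iff.1 h1 with h2 | h2
  · refine (min_le_left _ _).trans ?_
    push_cast
    omega
  · refine (min_le_right _ _).trans ?_
    push_cast
    omega

theorem pORD : StORD := by
  intro L _ p
  refine ⟨fun a b ha hb => ord_div p a b ha hb, fun g h hg hh => ord_mul' p g h hg hh, ?_,
    fun g => ord_neg' p g, ?_, fun g h hg hh hgh => ord_add' p g h hg hh hgh, ?_,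
    fun a => ord_C' p a, ?_, ?_⟩
  · intro g
    by_cases hg : g = 0
    · rw [hg, inv_zero, ord_zero', neg_zero]
    · obtain ⟨a, b, ha, hb, rfl⟩ := exists_div g hg
      rw [inv_div, ord_div p _ _ hb ha, ord_div p _ _ ha hb]
      ring
  · intro g n
    by_cases hg : g = 0
    · rcases Nat.eq_zero_or_pos n with hn | hn
      · subst hn
        rw [pow_zero]
        have := ord_C' p (1 : L)
        rw [map_one] at this
        rw [this]; simp
      · rw [hg, zero_pow (by omega), ord_zero']; simp
    · induction n with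
      | zero =>
        rw [pow_zero]
        have := ord_C' p (1 : L)
        rw [map_one] at this
        rw [this]; simp
      | succ n ih =>
        rw [pow_succ, ord_mul' p _ _ (pow_ne_zero n hg) hg, ih]
        push_cast
        ring
  · intro g h hg hh hlt
    have hne : g + h ≠ 0 := by
      intro h0
      have h1 : h = -g := by linear_combination h0
      rw [h1, ord_neg'] at hlt
      exact lt_irrefl _ hlt
    refine ⟨hne, ?_⟩
    have h1 := ord_add' p g h hg hh hne
    have h2 := ord_add' p (g + h) (-h) hne (neg_ne_zero.2 hh) (by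
      rw [add_neg_cancel_right]; exact hg)
    rw [add_neg_cancel_right, ord_neg'] at h2
    rw [min_eq_left hlt.le] at h1
    rcases min_le_iff.1 h2 with h3 | h3
    · exact le_antisymm h3 h1
    · exact absurd h3 (not_le.2 hlt)
  · have e : (RatFunc.X - RatFunc.C p : RatFunc L) = algebraMap L[X] (RatFunc L) (X - C p) := by
      rw [map_sub, RatFunc.algebraMap_X, RatFunc.algebraMap_C]
    rw [e, ord_poly p _ (X_sub_C_ne_zero p), rootMultiplicity_X_sub_C_self]
    simp
  · intro q hq
    have e : (RatFunc.X - RatFunc.C q : RatFunc L) = algebraMap L[X] (RatFunc L) (X - C q) := by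
      rw [map_sub, RatFunc.algebraMap_X, RatFunc.algebraMap_C]
    rw [e, ord_poly p _ (X_sub_C_ne_zero q)]
    have h0 : rootMultiplicity p (X - C q) = 0 := by
      rw [rootMultiplicity_eq_zero]
      intro hr
      rw [IsRoot.def, eval_sub, eval_X, eval_C, sub_eq_zero] at hr
      exact hq hr.symm
    rw [h0]
    simp

end Pool.Agent.Helper52.RK
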